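import Pool.Agent.Lib.IXB.FiG
import Pool.Agent.Lib.IXE.Hh

/-!
# The palindrome-pair language is inherently ambiguous for indexed grammars of finite index or bounded copying
-/

set_option autoImplicit false

namespace Pool.Agent.Results.MP_4bd044_lc.BoundedIndex

open Pool.Agent.Lib.IXB Pool.Agent.Lib.IXD

/-- Some indexed grammar of index `2` generates `L_C`. Let `G` be an indexed grammar with bounded index (all sentential
forms in derivations of words have at most `k` variables) or bounded copying (every index symbol which is pushed in a
derivation tree of a word is popped at most `k` times, all its copies together). If its language differs from `L_C` in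
only finitely many words, then infinitely many words have at least two leftmost derivations which differ as sequences of
sentential forms. For every such `G`, whatever its language, the sum of `log (n + 1) / (n + 1)` over the lengths `n` of the
words in which its language differs from `L_C` or which have at least two such leftmost derivations is infinite. -/
theorem result : (∃ G : IG Bool, Index G 2 ∧ G.lang = LC) ∧
    ∀ (G : IG Bool) (k : ℕ), (Index G k ∨ Copies G k) →
      ((symmDiff G.lang LC).Finite → (Amb G).Infinite) ∧
      ¬ Summable fun n : ↥(List.length '' (symmDiff G.lang LC ∪ Amb G)) =>
        Real.log (((n : ℕ) : ℝ) + 1) / (((n : ℕ) : ℝ) + 1) :=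
  ⟨⟨Fi.gE, Fi.ge_index, Fi.ge_lang⟩, fun _ _ h => ⟨fun hL => ig_main3 h hL, Pool.Agent.Lib.IXE.ig_main4 h⟩⟩

end Pool.Agent.Results.MP_4bd044_lc.BoundedIndex
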