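import Pool.Agent.Lib.IXB.Pow

/-!
# The palindrome-pair language inside regular languages with few unbounded powers
-/

set_option autoImplicit false

namespace Pool.Agent.Results.MP_4bd044_lc.FewPowers

open Pool.Agent.Lib.IXB

/-- Let `R` be a regular language over the two letters. If the words `u` of `L_C ∩ R` which have infinitely many powers
in `R` have polynomial growth, then `L_C ∩ R` is an unambiguous indexed language. -/
theorem result (R : Language Bool) (hR : R.IsRegular)
    (hg : ∃ C d : ℕ, ∀ n : ℕ, {u : List Bool | u ∈ LC ∧ u ∈ R ∧ {k : ℕ | (List.replicate k u).flatten ∈ R}.Infinite ∧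
      u.length = n}.ncard ≤ C * (n + 1) ^ d) :
    ∃ G : IG Bool, G.Unambiguous ∧ G.lang = {u : List Bool | u ∈ LC ∧ u ∈ R} := by
  obtain ⟨C, d, hg⟩ := hg
  exact Flag.pow_main R hR hg

end Pool.Agent.Results.MP_4bd044_lc.FewPowers
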