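import Pool.Agent.Lib.IXB.NiceH

/-!
# The palindrome-pair language: unambiguity outside the powers with large prime exponents
-/

set_option autoImplicit false

namespace Pool.Agent.Results.MP_4bd044_lc.PrimePowers

open Pool.Agent.Lib.IXB

/-- For every `K` there is an indexed grammar `G` generating `L_C` such that every word of `L_C` which is not a `p`-th power
of a nonempty word for a prime `p > K` has exactly one leftmost derivation in `G`; at most `n * 2 ^ (n / (K + 1))` words of
length `n` in `L_C` do not have exactly one. -/
theorem result (K : ℕ) : ∃ G : IG Bool, G.lang = LC ∧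
    (∀ u ∈ LC, (∀ (p : ℕ) (z : List Bool), p.Prime → z ≠ [] → u = (List.replicate p z).flatten → p ≤ K) → OneDer G u) ∧
    ∀ n : ℕ, {u : List Bool | u ∈ LC ∧ u.length = n ∧ ¬ OneDer G u}.ncard ≤ n * 2 ^ (n / (K + 1)) :=
  Nice.prime_main K

end Pool.Agent.Results.MP_4bd044_lc.PrimePowers
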