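import Pool.Agent.Lib.IXB.Star

/-!
# The unambiguous regular parts of the palindrome-pair language
-/

set_option autoImplicit false

namespace Pool.Agent.Results.MP_4bd044_lc.RegularParts

open Pool.Agent.Lib.IXB

/-- Let `R` be regular with period `j`. If `L_C ∩ R` is an unambiguous indexed language, then the words of `L_C ∩ R` with
infinitely many powers in `R` have polynomial growth, or the words of `L_C` of length `1` modulo `j` form an unambiguous
indexed language. For `j = 1`, that is for star-free `R`, the first alternative or the unambiguity of `L_C` itself is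
necessary and sufficient. -/
theorem result (R : Language Bool) (hR : R.IsRegular) (j : ℕ) (hj : 1 ≤ j) (hP : Period R j) :
    (UnIx {u : List Bool | u ∈ LC ∧ u ∈ R} →
      FewPow R ∨ UnIx {w : List Bool | w ∈ LC ∧ ∃ k : ℕ, w.length = k * j + 1}) ∧
    (j = 1 → (UnIx {u : List Bool | u ∈ LC ∧ u ∈ R} ↔ (FewPow R ∨ UnIx LC))) := by
  refine ⟨Flag.dich hR hj hP, ?_⟩
  rintro rfl
  exact Flag.star hR hP

end Pool.Agent.Results.MP_4bd044_lc.RegularParts
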